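import Pool.Agent.H703R3.HXFinal

/-!
# MP_5da384_an: a non-circular table with a convex caustic with constant arc between tangency points

The caustic is the regular hexagon with vertices `ω ^ k`, `ω = exp (π I / 3)`; the table is the union
of the six elliptic discs with foci `ω ^ (k - 1)`, `ω ^ (k + 1)` and string length `3` (its boundary
consists of six elliptic arcs). From a point of the `k`-th arc the two tangent lines pass through
`ω ^ (k - 1)` and `ω ^ (k + 1)`, and the arc of the hexagon between these points that faces `P` has
length `2`, one third of the perimeter.
-/

set_option autoImplicit false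

namespace Pool.Agent.Results.MP_5da384_an.HexagonCaustic

open Set Pool.Agent.H703R3.HX

/-- There are a strictly convex billiard table `Ω` of class `C^1` whose boundary is not a circle, a
convex caustic `frontier C` of it, parametrised by arc length by `γ` with total length `L`, and a
constant `c`, such that for every boundary point `P` of the table the two tangent lines to the caustic
through `P` touch it at points `γ s` and `γ (s + c)`, the arc `γ [s, s + c]` being the one that faces
`P`. Except for at most six points `P` of the boundary, each of the two tangent lines touches the
caustic at one point only. -/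
theorem result :
    ∃ (Ω C : Set ℂ) (γ : ℝ → ℂ) (L c : ℝ) (F : Finset ℂ),
      IsTable Ω ∧ (¬ ∃ (z : ℂ) (r : ℝ), frontier Ω = Metric.sphere z r) ∧
      IsConvexCaustic Ω C ∧ IsArcLengthParam C γ L ∧ 0 < c ∧ c < L ∧ F.card ≤ 6 ∧
      ∀ P ∈ frontier Ω, ∃ s : ℝ, TangentFrom C P (γ s) (γ (s + c)) ∧ Faces γ P s c ∧
        (P ∉ F → TouchesOnlyAt C P (γ s) ∧ TouchesOnlyAt C P (γ (s + c))) :=
  main

end Pool.Agent.Results.MP_5da384_an.HexagonCaustic
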